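import Pool.Agent.N334.CC.B
import Pool.Agent.N334.CC.C
import Pool.Agent.N334.CC.D
import Pool.Agent.H349R2.Tet.Dens1

/-!
# The lattice packing density of the circular cone is greater than `0.4717`

Let `C` be the cone with base the unit disk in the plane `z = 0` and apex `(0, 0, 1)`. The lattice
with the basis
`(83/80, √546/20, -7/16), (83/80, -√546/20, -7/16), (1/5, 0, -1)`
has determinant `19 √546 / 200` and no nonzero vector `(x, y, z)` with `|z| < 1` and
`|(x, y)| < 2 - |z|`, so it gives a packing of `C`, of density `200 π / (57 √546) = 0.47174...`.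
-/

set_option autoImplicit false

namespace Pool.Agent.Results.MP_45759f_co.LatticeAbove47

open MeasureTheory
open Pool.Agent.TH219.DL
open Pool.Agent.H349R2.Tet (V Packs deltaL dens dens_eq dt packs_image ratio_image)
open Pool.Agent.N334.CC

/-- `K` is a cone over an ellipse: the convex hull of the filled ellipse
`{p + s u + t w : s² + t² ≤ 1}` and of a point `p + a` outside its plane. The circular cones are the
case in which `u` and `w` are orthogonal and have the same length. -/
def IsConeOverEllipse (K : Set (Fin 3 → ℝ)) : Prop :=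
  ∃ p u w a : Fin 3 → ℝ, LinearIndependent ℝ ![u, w, a] ∧
    K = convexHull ℝ (insert (p + a) {x | ∃ s t : ℝ, s ^ 2 + t ^ 2 ≤ 1 ∧ x = p + s • u + t • w})

/-- Every cone `K` over an ellipse, in particular every circular cone, has lattice packing density
at least `200 π / (57 √546)`, which is greater than `0.4717`; the known bound `(2 + √2) π / 24` is
less than `0.447`. -/
theorem result :
    (∀ K : Set (Fin 3 → ℝ), IsConeOverEllipse K →
      ENNReal.ofReal (200 * Real.pi / (57 * √546)) ≤ dL K) ∧
    0.4717 < 200 * Real.pi / (57 * √546) ∧ (2 + √2) / 24 * Real.pi < 0.447 := by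
  have hs := s_pos
  refine ⟨?_, ?_, ?_⟩
  · rintro K ⟨p, u, w, a, hli, rfl⟩
    have hcard : Fintype.card (Fin 3) = Module.finrank ℝ V := by simp
    set b2 := basisOfLinearIndependentOfCardEqFinrank hli hcard with hb2
    set L : V ≃ₗ[ℝ] V := (Pi.basisFun ℝ (Fin 3)).equiv b2 (Equiv.refl _) with hL
    have hLv : ∀ i, L (Pi.single i 1) = ![u, w, a] i := by
      intro i
      have h3 : (Pi.basisFun ℝ (Fin 3)) i = (Pi.single i 1 : V) := by simp
      have h4 : b2 i = ![u, w, a] i := by simp [hb2]
      rw [← h3, ← h4, hL, Module.Basis.equiv_apply]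
      rfl
    rw [hull_eq p u w a L (hLv 0) (hLv 1) (hLv 2), dL_eq]
    have hP : Packs ((fun x => L x + p) '' cone0) (fun i => L (lb i)) :=
      (packs_image cone0 L p lb).2 packs0
    have hcomp : IsCompact ((fun x => L x + p) '' cone0) := by
      apply compact0.image
      have : Continuous (L : V → V) := L.toLinearMap.continuous_of_finiteDimensional
      fun_prop
    have h1 : dens ((fun x => L x + p) '' cone0) (fun i => L (lb i)) ≤
        deltaL ((fun x => L x + p) '' cone0) :=
      le_iSup₂ (f := fun b (_ : Packs ((fun x => L x + p) '' cone0) b) =>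
        dens ((fun x => L x + p) '' cone0) b) (fun i => L (lb i)) hP
    rw [dens_eq _ hP.1 _ hcomp, ratio_image _ _ _ _ (by rw [dt_lb]; positivity), dt_lb] at h1
    refine le_trans ?_ h1
    have h2 : |19 * √546 / 200| = 19 * √546 / 200 := abs_of_pos (by positivity)
    rw [h2]
    refine le_trans (le_of_eq ?_) (ENNReal.div_le_div_right vol0 _)
    rw [← ENNReal.ofReal_div_of_pos (by positivity)]
    congr 1
    field_simp
    ring
  · rw [lt_div_iff₀ (by positivity)]
    have h1 : √546 < 23.3667 := by
      rw [Real.sqrt_lt' (by norm_num)]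
      norm_num
    have h2 := Real.pi_gt_d4
    norm_num at h1 h2 ⊢
    linarith
  · have h1 : √2 < 1.41422 := by
      rw [Real.sqrt_lt' (by norm_num)]
      norm_num
    have h2 := Real.pi_lt_d4
    have h3 : (0 : ℝ) ≤ √2 := Real.sqrt_nonneg _
    norm_num at h1 h2 ⊢
    nlinarith [Real.pi_pos]

end Pool.Agent.Results.MP_45759f_co.LatticeAbove47
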